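import Pool.Agent.Q186.CA.Fin

/-!
# Short periodic geodesics on spaces with a circle action

`X` is a compact metric space in which any two points are joined by a minimal geodesic and minimal
geodesics between points at distance less than `r` are unique (every closed Riemannian manifold).
`ClosedGeod X L`: there is a periodic geodesic of positive length at most `L`.

The circle acts on `X` by `lam`-Lipschitz maps (`lam = 1`: by isometries) with two fixed points
`x₀`, `x₁`, and there is a line bundle over `X`, given by a continuous family `P` of projections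
onto lines of `ℂ^k`, with an action of the circle, given by matrices `W θ` (it need not be
continuous in `θ`), whose weights at the two fixed points are different.

The proof: let `c` be a minimal geodesic from `x₀` to `x₁`. If there is no periodic geodesic of
length at most `(1 + lam) d(x₀, x₁)`, then Birkhoff's shortening contracts all closed polygons of
at most this length to points, in particular the family `θ ↦ c ∪ θ c` of closed curves. The
holonomy `trace (P z₀ P z₁ ⋯ P z_N)` along the polygons does not vanish, so that its winding number
over the family would be `0`; but it is the difference of the two weights.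
-/

set_option autoImplicit false

namespace Pool.Agent.Results.MP_3eff7f_gt.CircleActions

open Pool.Agent.Y489.GE Pool.Agent.Q186.CA

/-- Let the circle act on the compact geodesic space `X` (with uniqueness of minimal geodesics
between near points) by `lam`-Lipschitz maps. Let `P x` be the projection of `ℂ^k` onto a line,
continuous in `x`, let `W θ` be invertible matrices with `P (θ x) = (W θ) (P x) (W θ)⁻¹`, and let
`x₀`, `x₁` be fixed points at which `W θ` acts on the line by `θ^m₀` and by `θ^m₁` with
`m₀ ≠ m₁`. Then there is a periodic geodesic of length at most `(1 + lam) d(x₀, x₁)`. -/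
theorem result (X : Type) [MetricSpace X] [CompactSpace X] (r : ℝ) (hr : 0 < r)
    (hX : GeodSpace X) (hU : UniqGeod X r) [MulAction Circle X] [ContinuousSMul Circle X]
    (lam : ℝ) (hLip : ∀ (θ : Circle) (x y : X), dist (θ • x) (θ • y) ≤ lam * dist x y)
    (k : ℕ) (P : X → Matrix (Fin k) (Fin k) ℂ) (hPc : Continuous P) (hPl : ∀ x, IsLine (P x))
    (W W' : Circle → Matrix (Fin k) (Fin k) ℂ) (hW : ∀ θ, W' θ * W θ = 1)
    (hWP : ∀ θ x, P (θ • x) = W θ * P x * W' θ)
    (x₀ x₁ : X) (hx₀ : ∀ θ : Circle, θ • x₀ = x₀) (hx₁ : ∀ θ : Circle, θ • x₁ = x₁)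
    (m₀ m₁ : ℤ) (hm₀ : ∀ θ : Circle, W θ * P x₀ = ((θ : ℂ) ^ m₀) • P x₀)
    (hm₁ : ∀ θ : Circle, W θ * P x₁ = ((θ : ℂ) ^ m₁) • P x₁) (hne : m₀ ≠ m₁) :
    ClosedGeod X ((1 + lam) * dist x₀ x₁) :=
  main X hr hX hU hLip P hPc hPl W W' hW hWP x₀ x₁ hx₀ hx₁ m₀ m₁ hm₀ hm₁ hne

end Pool.Agent.Results.MP_3eff7f_gt.CircleActions
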