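import Pool.Agent.Q186.RS.Main

/-!
# Short periodic geodesics from the topology of the fixed set of an isometric involution

`X` is a compact metric space in which any two points are joined by a minimal geodesic and minimal
geodesics between points at distance less than `r` are unique (every closed Riemannian manifold).
`ClosedGeod X L`: there is a periodic geodesic of positive length at most `L`.

`ShortlyHomotopic ℓ f g`: the maps `f`, `g` to `X` are homotopic by a homotopy all tracks of which
are curves of length at most `ℓ`.

`σ` is an isometric involution and `F` the set of its fixed points. Two maps to `F` which are
homotopic in `X` by short tracks, but not in `F`, give a short periodic geodesic. If `Y` is a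
point, this says that there is a periodic geodesic of length at most `2 d(a, b)` for points `a`,
`b` of different path components of `F`; the theorem is about connected `F` as well.

Proof. The tracks `a y` and their images under `σ` form closed curves which are symmetric under
`σ`. The closed polygons `x` with `x (-i) = σ (x i)` are shortened by a process which preserves
this symmetry (all vertices are moved to the middle of the following side, then all to the middle of
the preceding side). If there is no periodic geodesic of length at most `2 ℓ`, then all of them
shrink to points, and the vertices `x 0` and `x M`, where there are `2 M` vertices, stay in `F`.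
-/

set_option autoImplicit false

namespace Pool.Agent.Results.MP_3eff7f_gt.FixedSetOfAnInvolution

open Pool.Agent.Y489.GE Pool.Agent.Q186.RS

/-- Let `σ` be an isometric involution of a compact geodesic space `X` with uniqueness of minimal
geodesics between near points, and let `g`, `k` be continuous maps of a topological space `Y` to
the fixed set of `σ` which are homotopic in `X` by a homotopy with tracks of length at most `ℓ`,
but not homotopic in the fixed set. Then `X` has a periodic geodesic of length at most `2 ℓ`. -/
theorem result (X : Type) [MetricSpace X] [CompactSpace X] (r : ℝ) (hr : 0 < r)
    (hX : GeodSpace X) (hU : UniqGeod X r) (σ : X ≃ᵢ X) (hσ : σ * σ = 1) (Y : Type)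
    [TopologicalSpace Y] (g k : C(Y, {x : X // σ x = x})) (hgk : ¬ g.Homotopic k) (ℓ : ℝ)
    (hℓ : 0 < ℓ) (h : ShortlyHomotopic ℓ (fun y => (g y : X)) (fun y => (k y : X))) :
    ClosedGeod X (2 * ℓ) :=
  main X hr hX hU σ hσ Y g k hgk hℓ h

end Pool.Agent.Results.MP_3eff7f_gt.FixedSetOfAnInvolution
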