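import Pool.Agent.H180.Sym.Refl

/-!
# Short periodic geodesics from isometric involutions and from isometries without fixed points

`X` is a compact metric space in which any two points are joined by a minimal geodesic and minimal
geodesics between points at distance less than `r` are unique (every closed Riemannian manifold).
`ClosedGeod X L`: there is a periodic geodesic of positive length at most `L`.

If `A` is a union of components of the fixed set of an isometric involution `σ` and `B` is a union
of components of the fixed set of an isometric involution `τ`, `A` and `B` are disjoint, then a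
shortest geodesic from `A` to `B` is continued by the reflections to a geodesic which is invariant
under `σ τ`; it is periodic if `σ τ` has finite order.
-/

set_option autoImplicit false

open Set Topology

namespace Pool.Agent.Results.MP_3eff7f_gt.Reflections

open Pool.Agent.Y489.GE Pool.Agent.H180.Sym

/-- (1) A closed manifold with an isometric involution whose fixed set is empty or not connected has
a periodic geodesic of length at most twice the diameter. (2) Two isometric involutions `σ`, `τ`
with `(σ τ)^m = 1` and parts `A`, `B` of their fixed sets (open and closed in them) which are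
disjoint give a periodic geodesic of length at most `2 m d(A, B)`. (3) An isometry `σ` without
fixed points with `σ^m = 1` gives a periodic geodesic of length at most `m d(y, σ y)` for every
point `y`. -/
theorem result (X : Type) [MetricSpace X] [CompactSpace X] [Nonempty X] (r : ℝ) (hr : 0 < r)
    (hX : GeodSpace X) (hU : UniqGeod X r) :
    (∀ σ : X ≃ᵢ X, σ * σ = 1 → ¬ IsConnected {x | σ x = x} →
      ClosedGeod X (2 * Metric.diam (univ : Set X))) ∧
    (∀ (σ τ : X ≃ᵢ X) (m : ℕ), 1 ≤ m → σ * σ = 1 → τ * τ = 1 → (σ * τ) ^ m = 1 →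
      ∀ A B : Set X, IsClosed A → IsClosed B → A ⊆ {x | σ x = x} → B ⊆ {x | τ x = x} →
        IsClosed ({x | σ x = x} \ A) → IsClosed ({x | τ x = x} \ B) → Disjoint A B →
        ∀ a ∈ A, ∀ b ∈ B, ClosedGeod X (2 * m * dist a b)) ∧
    (∀ (σ : X ≃ᵢ X) (m : ℕ), 1 ≤ m → σ ^ m = 1 → (∀ x, σ x ≠ x) →
      ∀ y : X, ClosedGeod X (m * dist y (σ y))) := by
  have hbd : Bornology.IsBounded (univ : Set X) := isCompact_univ.isBounded
  have hdD : ∀ x y : X, dist x y ≤ Metric.diam (univ : Set X) := fun x y =>
    Metric.dist_le_diam_of_mem hbd (mem_univ x) (mem_univ y)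
  have mono : ∀ {L L' : ℝ}, ClosedGeod X L → L ≤ L' → ClosedGeod X L' := by
    rintro L L' ⟨γ, ℓ, h0, h1, h2, h3⟩ hL
    exact ⟨γ, ℓ, h0, h1.trans hL, h2, h3⟩
  refine ⟨?_, ?_, ?_⟩
  · intro σ hσ hcon
    rcases Set.eq_empty_or_nonempty {x | σ x = x} with hemp | hne
    · obtain ⟨y⟩ := ‹Nonempty X›
      have hfix : ∀ x, σ x ≠ x := fun x hx => by
        have : x ∈ {x | σ x = x} := hx
        rw [hemp] at this
        exact this
      have h := closed_of_free hX σ (m := 2) (by norm_num) (by rw [pow_two, hσ]) hfix y
      refine mono h ?_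
      have := hdD y (σ y)
      push_cast
      linarith
    · have hpre : ¬ IsPreconnected {x | σ x = x} := fun h => hcon ⟨hne, h⟩
      rw [isPreconnected_closed_iff] at hpre
      push Not at hpre
      obtain ⟨t, t', ht, ht', hsub, h1, h2, h3⟩ := hpre
      have hF : IsClosed {x | σ x = x} := isClosed_eq σ.continuous continuous_id
      obtain ⟨a, haF, hat⟩ := h1
      obtain ⟨b, hbF, hbt⟩ := h2
      have h3' : ∀ x, σ x = x → x ∈ t → x ∉ t' := by
        intro x hx hxt hxt'
        have : x ∈ ({x | σ x = x} ∩ (t ∩ t')) := ⟨hx, hxt, hxt'⟩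
        simp_all
      have e1 : {x | σ x = x} \ ({x | σ x = x} ∩ t) = {x | σ x = x} ∩ t' := by
        ext x
        constructor
        · rintro ⟨h4, h5⟩
          refine ⟨h4, ?_⟩
          rcases hsub h4 with h6 | h6
          · exact absurd ⟨h4, h6⟩ h5
          · exact h6
        · rintro ⟨h4, h5⟩
          exact ⟨h4, fun h6 => h3' x h4 h6.2 h5⟩
      have e2 : {x | σ x = x} \ ({x | σ x = x} ∩ t') = {x | σ x = x} ∩ t := by
        ext x
        constructor
        · rintro ⟨h4, h5⟩
          refine ⟨h4, ?_⟩
          rcases hsub h4 with h6 | h6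
          · exact h6
          · exact absurd ⟨h4, h6⟩ h5
        · rintro ⟨h4, h5⟩
          exact ⟨h4, fun h6 => h3' x h4 h5 h6.2⟩
      have h := closed_of_reflections hr hX hU σ σ hσ hσ (m := 1) le_rfl (by rw [pow_one, hσ])
        (A := {x | σ x = x} ∩ t) (B := {x | σ x = x} ∩ t') (hF.inter ht) (hF.inter ht')
        (fun x hx => hx.1) (fun x hx => hx.1) (by rw [e1]; exact hF.inter ht')
        (by rw [e2]; exact hF.inter ht)
        (Set.disjoint_left.2 fun x hx hx' => h3' x hx.1 hx.2 hx'.2) (a₀ := a) (b₀ := b)
        ⟨haF, hat⟩ ⟨hbF, hbt⟩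
      refine mono h ?_
      have := hdD a b
      push_cast
      linarith
  · intro σ τ m hm hσ hτ hστ A B hA hB hAσ hBτ hA' hB' hAB a ha b hb
    exact closed_of_reflections hr hX hU σ τ hσ hτ hm hστ hA hB (fun x hx => hAσ hx)
      (fun x hx => hBτ hx) hA' hB' hAB ha hb
  · intro σ m hm hσ hfix y
    exact closed_of_free hX σ hm hσ hfix y

end Pool.Agent.Results.MP_3eff7f_gt.Reflections
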