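import Pool.Agent.Q186.LS.Glue

/-!
# Short periodic geodesics on spaces covered by two sets which contract along short curves

`X` is a compact metric space in which any two points are joined by a minimal geodesic and minimal
geodesics between points at distance less than `r` are unique (every closed Riemannian manifold).
`ClosedGeod X L`: there is a periodic geodesic of positive length at most `L`.

`Contracts F U p ℓ`: on the set `U` the map `F` is contracted to the point `p` by a homotopy all
tracks of which are curves of length at most `ℓ`.

There is no symmetry and no bound on curvature or injectivity radius. For `Z = X` and `F` the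
identity: a closed Riemannian manifold which is the union of two open sets, contractible in it to
points along curves of length at most `ℓ₁` and `ℓ₂`, has a periodic geodesic of length at most
`2 (ℓ₁ + ℓ₂)`.

Proof. For `z` in both sets let `a z` be the path from `p` to `F z` to `q` along the two tracks.
If there is no periodic geodesic of length at most `2 (ℓ₁ + ℓ₂)`, then Birkhoff's shortening
contracts all the closed curves `a z ∪ a z₀` to points simultaneously, so that the paths `a z` are
homotopic to the fixed path `a z₀` with fixed ends, continuously in `z`. Glued with the two given
contractions this is a homotopy from `F` to a map which factors through an interval.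
-/

set_option autoImplicit false

namespace Pool.Agent.Results.MP_3eff7f_gt.TwoContractibleSets

open Pool.Agent.Y489.GE Pool.Agent.Q186.LS

/-- Let `X` be a compact geodesic space with uniqueness of minimal geodesics between near points,
`F` a continuous map of a normal space `Z` to `X` which is not homotopic to a constant map, and let
`Z` be the union of two open sets `U` and `V` such that `F` is contracted on `U` to a point `p` by
tracks of length at most `ℓ₁` and on `V` to a point `q` by tracks of length at most `ℓ₂`. Then
there is a periodic geodesic of length at most `2 (ℓ₁ + ℓ₂)`. -/
theorem result (X : Type) [MetricSpace X] [CompactSpace X] (r : ℝ) (hr : 0 < r)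
    (hX : GeodSpace X) (hUq : UniqGeod X r) (Z : Type) [TopologicalSpace Z] [NormalSpace Z]
    (F : C(Z, X)) (hF : ¬ F.Nullhomotopic) (U V : Set Z) (hU : IsOpen U) (hV : IsOpen V)
    (hUV : U ∪ V = Set.univ) (p q : X) (ℓ₁ ℓ₂ : ℝ) (hℓ₁ : 0 < ℓ₁) (hℓ₂ : 0 < ℓ₂)
    (h₁ : Contracts F U p ℓ₁) (h₂ : Contracts F V q ℓ₂) : ClosedGeod X (2 * (ℓ₁ + ℓ₂)) :=
  main X hr hX hUq Z F hF hU hV hUV hℓ₁ hℓ₂ h₁ h₂

end Pool.Agent.Results.MP_3eff7f_gt.TwoContractibleSets
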